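import Pool.Agent.REV.StmtsV3

set_option autoImplicit false

namespace Pool.Agent.REV.H27

open Set MeasureTheory Filter
open scoped Topology

/-- the kernel on `(0, 1)` -/
noncomputable def kk (r : ℝ) : ℝ := r ^ 2 * (1 - r ^ 2) ^ (-(1 / 2) : ℝ)

theorem kk_nonneg (r : ℝ) (h0 : 0 ≤ r) (h1 : r ≤ 1) : 0 ≤ kk r :=
  mul_nonneg (sq_nonneg _) (Real.rpow_nonneg (by nlinarith) _)

theorem kk_meas : Measurable kk := by
  unfold kk
  fun_prop

theorem kk_int : IntervalIntegrable kk volume 0 1 := by
  have h1 : IntervalIntegrable (fun r : ℝ => (1 - r) ^ (-(1 / 2) : ℝ)) volume 0 1 := by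
    have h := (intervalIntegral.intervalIntegrable_rpow' (a := (1 : ℝ)) (b := 0)
      (r := (-(1 / 2) : ℝ)) (by norm_num)).comp_sub_left 1
    simpa using h
  refine h1.mono_fun kk_meas.aestronglyMeasurable ?_
  rw [uIoc_of_le zero_le_one]
  have hne : ∀ᵐ r : ℝ ∂(volume.restrict (Ioc 0 1)), r ≠ 1 :=
    ae_restrict_of_ae (Measure.ae_ne volume 1)
  filter_upwards [ae_restrict_mem measurableSet_Ioc, hne] with r hr hr1
  have hr2 : r < 1 := lt_of_le_of_ne hr.2 hr1
  rw [Real.norm_of_nonneg (kk_nonneg r hr.1.le hr.2),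
    Real.norm_of_nonneg (Real.rpow_nonneg (by linarith) _)]
  unfold kk
  have h3 : (1 - r ^ 2) ^ (-(1 / 2) : ℝ) ≤ (1 - r) ^ (-(1 / 2) : ℝ) :=
    Real.rpow_le_rpow_of_nonpos (by linarith) (by nlinarith [hr.1]) (by norm_num)
  have h4 : r ^ 2 ≤ 1 := by nlinarith [hr.1, hr.2]
  have h5 : 0 ≤ (1 - r ^ 2) ^ (-(1 / 2) : ℝ) := Real.rpow_nonneg (by nlinarith [hr.1]) _
  nlinarith

/-- the dilated kernel -/
noncomputable def KK (c s : ℝ) : ℝ := (Ioc 0 c).indicator (fun s => c⁻¹ * kk (s / c)) s

theorem KK_nonneg (c s : ℝ) (hc : 0 < c) : 0 ≤ KK c s := by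
  unfold KK
  refine indicator_nonneg (fun s hs => ?_) s
  refine mul_nonneg (by positivity) (kk_nonneg _ (by have := hs.1; positivity) ?_)
  exact (div_le_one hc).2 hs.2

theorem KK_meas (c : ℝ) : Measurable (KK c) := by
  unfold KK
  refine Measurable.indicator ?_ measurableSet_Ioc
  exact (kk_meas.comp (measurable_id.div_const c)).const_mul _

theorem KK_int (c : ℝ) (hc : 0 < c) : Integrable (KK c) := by
  unfold KK
  rw [integrable_indicator_iff measurableSet_Ioc]
  have h : IntervalIntegrable (fun s : ℝ => kk (s / c)) volume 0 c := by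
    have := kk_int.comp_mul_left (c := c⁻¹)
    simpa [div_eq_inv_mul, hc.ne'] using this
  rw [intervalIntegrable_iff_integrableOn_Ioc_of_le hc.le] at h
  exact h.const_mul _

theorem RB_KK (f : ℝ → ℝ) (c : ℝ) (hc : 0 < c) : RB 3 f c = ∫ s, KK c s * f s := by
  have h1 : RB 3 f c = ∫ r in (0 : ℝ)..1, (fun x => kk (x / c) * f x) (r * c) := by
    unfold RB
    refine intervalIntegral.integral_congr fun r _ => ?_
    simp only [mul_div_cancel_right₀ _ hc.ne']
    unfold kk
    norm_num
  have h2 := intervalIntegral.integral_comp_mul_right (a := (0 : ℝ)) (b := 1)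
    (fun x => kk (x / c) * f x) hc.ne'
  rw [h1, h2, zero_mul, one_mul,
    intervalIntegral.integral_of_le hc.le, smul_eq_mul, ← integral_const_mul,
    ← integral_indicator measurableSet_Ioc]
  refine integral_congr_ae (Eventually.of_forall fun s => ?_)
  show _ = KK c s * f s
  unfold KK
  by_cases hs : s ∈ Ioc 0 c
  · rw [indicator_of_mem hs, indicator_of_mem hs]
    ring
  · rw [indicator_of_notMem hs, indicator_of_notMem hs, zero_mul]

theorem KK_one (c : ℝ) (hc : 0 < c) : ∫ s, KK c s = ∫ s, KK 1 s := by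
  have h := RB_KK (fun _ => 1) c hc
  have h1 := RB_KK (fun _ => 1) 1 one_pos
  simp only [mul_one] at h h1
  rw [← h, ← h1]
  rfl

theorem KK_cont (c s : ℝ) (hc : 0 < c) (hs : s ≠ c) : ContinuousAt (fun u => KK u s) c := by
  by_cases h0 : 0 < s
  · rcases lt_or_gt_of_ne hs with h | h
    · -- `s < c`
      have e : (fun u => KK u s) =ᶠ[𝓝 c] fun u => u⁻¹ * kk (s / u) := by
        filter_upwards [eventually_gt_nhds h] with u hu
        have hm : s ∈ Ioc 0 u := ⟨h0, hu.le⟩
        unfold KK
        rw [indicator_of_mem hm]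
      refine ContinuousAt.congr ?_ e.symm
      have h1 : ContinuousAt (fun u : ℝ => s / u) c :=
        continuousAt_const.div continuousAt_id hc.ne'
      have hlt : s / c < 1 := (div_lt_one hc).2 h
      have h2 : ContinuousAt kk (s / c) := by
        unfold kk
        refine (by fun_prop : ContinuousAt (fun r : ℝ => r ^ 2) (s / c)).mul ?_
        refine ContinuousAt.rpow_const (by fun_prop) (Or.inl ?_)
        have : 0 ≤ s / c := by positivity
        nlinarith
      exact (continuousAt_id.inv₀ hc.ne').mul (ContinuousAt.comp (f := fun u : ℝ => s / u) h2 h1)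
    · have e : (fun u => KK u s) =ᶠ[𝓝 c] fun _ => 0 := by
        filter_upwards [eventually_lt_nhds h] with u hu
        unfold KK
        rw [indicator_of_notMem]
        exact fun h' => absurd h'.2 (not_le.2 hu)
      exact ContinuousAt.congr continuousAt_const e.symm
  · have e : (fun u => KK u s) = fun _ => 0 := by
      funext u
      unfold KK
      rw [indicator_of_notMem]
      exact fun h' => h0 h'.1
    rw [e]
    exact continuousAt_const

theorem rc3 : Rc3Stmt := by
  intro f c hf hb hc
  obtain ⟨C, hC⟩ := hb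
  have hC0 : 0 ≤ C := (abs_nonneg _).trans (hC 0)
  -- the integral of the minimum
  have hmin : Tendsto (fun u => ∫ s, min (KK u s) (KK c s)) (𝓝 c) (𝓝 (∫ s, KK c s)) := by
    refine tendsto_integral_filter_of_dominated_convergence (KK c) ?_ ?_ (KK_int c hc) ?_
    · exact Eventually.of_forall fun u => ((KK_meas u).min (KK_meas c)).aestronglyMeasurable
    · filter_upwards [eventually_gt_nhds hc] with u hu
      refine Eventually.of_forall fun s => ?_
      rw [Real.norm_of_nonneg (le_min (KK_nonneg u s hu) (KK_nonneg c s hc))]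
      exact min_le_right _ _
    · filter_upwards [Measure.ae_ne volume c] with s hs
      have h := (KK_cont c s hc hs).tendsto.min (tendsto_const_nhds (x := KK c s))
      rwa [min_self] at h
  have hlim : Tendsto (fun u => C * (2 * ((∫ s, KK c s) - ∫ s, min (KK u s) (KK c s)))) (𝓝 c)
      (𝓝 0) := by
    have := ((hmin.const_sub (∫ s, KK c s)).const_mul 2).const_mul C
    simpa using this
  rw [ContinuousAt, tendsto_iff_dist_tendsto_zero]
  refine squeeze_zero' (Eventually.of_forall fun _ => dist_nonneg) ?_ hlim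
  filter_upwards [eventually_gt_nhds hc] with u hu
  have hu0 : 0 < u := hu
  have iu := KK_int u hu0
  have ic := KK_int c hc
  have im : Integrable fun s => min (KK u s) (KK c s) := iu.inf ic
  have ifu : Integrable fun s => KK u s * f s :=
    iu.mul_bdd (c := C) hf.aestronglyMeasurable (Eventually.of_forall hC)
  have ifc : Integrable fun s => KK c s * f s :=
    ic.mul_bdd (c := C) hf.aestronglyMeasurable (Eventually.of_forall hC)
  rw [Real.dist_eq, RB_KK f u hu0, RB_KK f c hc, ← integral_sub ifu ifc]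
  have e1 : C * (2 * ((∫ s, KK c s) - ∫ s, min (KK u s) (KK c s))) =
      ∫ s, C * (KK u s + KK c s - 2 * min (KK u s) (KK c s)) := by
    have a1 : ∫ s, (KK u s + KK c s - 2 * min (KK u s) (KK c s)) =
        (∫ s, (KK u s + KK c s)) - ∫ s, 2 * min (KK u s) (KK c s) :=
      integral_sub (f := fun s => KK u s + KK c s) (iu.add ic) (im.const_mul 2)
    rw [integral_const_mul, a1, integral_add iu ic,
      integral_const_mul, KK_one u hu0, KK_one c hc]
    ring
  rw [e1]
  refine (abs_integral_le_integral_abs).trans ?_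
  refine integral_mono (ifu.sub ifc).abs (((iu.add ic).sub (im.const_mul 2)).const_mul C)
    fun s => ?_
  show |KK u s * f s - KK c s * f s| ≤ C * (KK u s + KK c s - 2 * min (KK u s) (KK c s))
  rw [← sub_mul, abs_mul, mul_comm]
  refine mul_le_mul (hC s) ?_ (abs_nonneg _) hC0
  rcases le_total (KK u s) (KK c s) with h | h
  · rw [min_eq_left h, abs_of_nonpos (by linarith)]
    linarith
  · rw [min_eq_right h, abs_of_nonneg (by linarith)]
    linarith

end Pool.Agent.REV.H27
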