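import Pool.Agent.REV.StmtsG3

set_option autoImplicit false

namespace Pool.Agent.REV.H27

open MeasureTheory Set

theorem dhi_ftc (e : ℝ) (he : 0 ≤ e) (x y : ℝ) :
    IntervalIntegrable (fun b : ℝ => (1 - b ^ 2) ^ e * b) volume x y ∧
    ∫ b in x..y, (1 - b ^ 2) ^ e * b =
      (1 - x ^ 2) ^ (e + 1) / (2 * (e + 1)) - (1 - y ^ 2) ^ (e + 1) / (2 * (e + 1)) := by
  have hc : Continuous (fun b : ℝ => (1 - b ^ 2) ^ e * b) := by
    refine Continuous.mul (Continuous.rpow_const (by fun_prop) fun b => Or.inr he) continuous_id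
  have hi : IntervalIntegrable (fun b : ℝ => (1 - b ^ 2) ^ e * b) volume x y :=
    hc.intervalIntegrable x y
  refine ⟨hi, ?_⟩
  have hd : ∀ b ∈ uIcc x y, HasDerivAt (fun b : ℝ => -((1 - b ^ 2) ^ (e + 1) / (2 * (e + 1))))
      ((1 - b ^ 2) ^ e * b) b := by
    intro b _
    have h1 : HasDerivAt (fun b : ℝ => 1 - b ^ 2) (-(2 * b)) b := by
      have := (hasDerivAt_pow 2 b).const_sub 1
      simpa using this
    have h2 := h1.rpow_const (p := e + 1) (Or.inr (by linarith))
    have h3 := (h2.div_const (2 * (e + 1))).neg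
    have he1 : e + 1 ≠ 0 := by positivity
    have : -(-(2 * b) * (e + 1) * (1 - b ^ 2) ^ (e + 1 - 1) / (2 * (e + 1))) =
        (1 - b ^ 2) ^ e * b := by
      rw [show e + 1 - 1 = e by ring]
      field_simp
    rw [this] at h3
    exact h3
  rw [intervalIntegral.integral_eq_sub_of_hasDerivAt hd hi]
  ring

theorem dhi : DhiStmt := by
  intro n q p hn hp
  have hn' : (4 : ℝ) ≤ n := by exact_mod_cast hn
  set e : ℝ := ((n : ℝ) - 4) / 2 with he
  have he0 : 0 ≤ e := by rw [he]; linarith
  have he1 : ((n : ℝ) - 2) / 2 = e + 1 := by rw [he]; ring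
  rw [he1]
  set β : ℝ := -(q / p) with hβ
  set β' : ℝ := max (-1) (min 1 β) with hβ'
  have b1 : -1 ≤ β' := le_max_left _ _
  have b2 : β' ≤ 1 := max_le (by norm_num) (min_le_left _ _)
  have hq : q = -β * p := by rw [hβ]; field_simp
  -- the sign
  have sn : ∀ b : ℝ, -1 < b → b < β' → Real.sign (q + p * b) = -1 := by
    intro b h1 h2
    apply Real.sign_of_neg
    have : b < β := by
      by_contra hh
      push Not at hh
      rcases lt_max_iff.1 h2 with h | h
      · linarith
      · exact absurd (lt_of_lt_of_le h (min_le_right _ _)) (not_lt.2 hh)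
    rw [hq]; nlinarith
  have sp : ∀ b : ℝ, β' < b → b < 1 → Real.sign (q + p * b) = 1 := by
    intro b h1 h2
    apply Real.sign_of_pos
    have : β < b := by
      by_contra hh
      push Not at hh
      have : b ≤ β' := le_trans (le_min h2.le hh) (le_max_right _ _)
      linarith
    rw [hq]; nlinarith
  obtain ⟨i1, v1⟩ := dhi_ftc e he0 (-1) β'
  obtain ⟨i2, v2⟩ := dhi_ftc e he0 β' 1
  have c1 : EqOn (fun b : ℝ => -((1 - b ^ 2) ^ e * b))
      (fun b : ℝ => (1 - b ^ 2) ^ e * (Real.sign (q + p * b) * b)) (uIoo (-1) β') := by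
    intro b hb
    rw [uIoo_of_le b1] at hb
    simp only
    rw [sn b hb.1 hb.2]
    ring
  have c2 : EqOn (fun b : ℝ => ((1 - b ^ 2) ^ e * b))
      (fun b : ℝ => (1 - b ^ 2) ^ e * (Real.sign (q + p * b) * b)) (uIoo β' 1) := by
    intro b hb
    rw [uIoo_of_le b2] at hb
    simp only
    rw [sp b hb.1 hb.2]
    ring
  have j1 := i1.neg.congr_uIoo c1
  have j2 := i2.congr_uIoo c2
  rw [← intervalIntegral.integral_add_adjacent_intervals j1 j2,
    ← intervalIntegral.integral_congr_uIoo c1, ← intervalIntegral.integral_congr_uIoo c2,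
    intervalIntegral.integral_neg, v1, v2]
  have z1 : (1 - (-1 : ℝ) ^ 2) ^ (e + 1) = 0 := by
    rw [show (1 - (-1 : ℝ) ^ 2) = 0 by norm_num]
    exact Real.zero_rpow (by positivity)
  have z2 : (1 - (1 : ℝ) ^ 2) ^ (e + 1) = 0 := by
    rw [show (1 - (1 : ℝ) ^ 2) = 0 by norm_num]
    exact Real.zero_rpow (by positivity)
  have z3 : 1 - β' ^ 2 = max (1 - (q / p) ^ 2) 0 := by
    have hqp : q / p = -β := by rw [hβ]; ring
    rw [hqp, neg_sq]
    rcases le_total β (-1) with h | h
    · have : β' = -1 := by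
        rw [hβ']
        exact max_eq_left ((min_le_right _ _).trans h)
      rw [this, max_eq_right (by nlinarith)]
      norm_num
    · rcases le_total β 1 with h' | h'
      · have : β' = β := by
          rw [hβ', min_eq_right h', max_eq_right h]
        rw [this, max_eq_left (by nlinarith)]
      · have : β' = 1 := by
          rw [hβ', min_eq_left h', max_eq_right (by norm_num)]
        rw [this, max_eq_right (by nlinarith)]
        norm_num
  rw [z1, z2, z3]
  have hn2 : (n : ℝ) - 2 = 2 * (e + 1) := by rw [he]; ring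
  rw [hn2]
  have : e + 1 ≠ 0 := by positivity
  field_simp
  ring

end Pool.Agent.REV.H27
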