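import Pool.Agent.REV.StmtsG
import Pool.Agent.BPH.Uni
import Pool.Agent.BPH.Haa
import Pool.Agent.BPH.Sph

/-!
# REV, row MSU: the mean over the unit sphere of a subspace
-/

set_option autoImplicit false

open MeasureTheory Module Set Filter
open scoped RealInnerProductSpace Pointwise Topology ENNReal

namespace Pool.Agent.REV.H27

open Pool.Agent.BPH Pool.Agent.REV

theorem msu : MsuStmt := by
  intro E _ _ _ _ _ U hU φ hφ
  obtain ⟨x, hx, hx0⟩ := Submodule.exists_mem_ne_zero_of_ne_bot hU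
  obtain ⟨lam, hlam⟩ := haa U
  have hxn : ‖x‖ ≠ 0 := norm_ne_zero_iff.2 hx0
  have hy : ‖(⟨‖x‖⁻¹ • x, U.smul_mem _ hx⟩ : U)‖ = 1 := by
    rw [Submodule.coe_norm]
    show ‖‖x‖⁻¹ • x‖ = 1
    rw [norm_smul, norm_inv, norm_norm]
    exact inv_mul_cancel₀ hxn
  have hT : Tst (fun y : U => φ (y : E)) :=
    ⟨hφ.meas.comp measurable_subtype_coe, let ⟨C, hC⟩ := hφ.bdd; ⟨C, fun y => hC y⟩⟩
  have h1 := (uni sph_facts).sub U lam hlam _ hy φ hφ
  have h2 := (uni sph_facts).all lam hlam _ hy (fun y : U => φ (y : E)) hT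
  rw [← h1, ← h2]

end Pool.Agent.REV.H27
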