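import Pool.Agent.REV.StmtsA2

set_option autoImplicit false

namespace Pool.Agent.REV.H27

open Set MeasureTheory

theorem stb_congr {α β M : ℝ} {f g : ℝ → ℝ} (h : StB α β M f)
    (hfg : ∀ t ∈ Icc (0 : ℝ) 1, g t = f t) : StB α β M g := by
  intro t ht0 ht1
  rw [hfg t ⟨ht0.le, ht1.le⟩]
  exact h t ht0 ht1

theorem stg (fac : FacStmt) (sga : SgaStmt) (sgb : SgbStmt) : StgStmt := by
  intro n i C1 C2 κ η hn hi hin hC1 hC2 hκ hη
  obtain ⟨S, hS, hfac⟩ := fac n i C1 C2 κ η hn hi hin hC1 hC2 hκ hη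
  set M1 : ℝ := S * ((C1 + C2) * κ ^ i) with hM1
  set M2 : ℝ := S * (C1 * κ ^ i + 4 * C2 * M1 * κ ^ (i - 1)) with hM2
  set M3 : ℝ := S * ((C1 + C2) * (4 * M2) ^ i) with hM3
  set M4 : ℝ := S * ((C1 + C2) * (4 * M3) ^ i) with hM4
  set M5 : ℝ := S * ((C1 + C2) * (4 * M4) ^ i) with hM5
  set M6 : ℝ := S * ((C1 + C2) * (4 * M5) ^ i) with hM6
  have p1 : 0 ≤ M1 := by rw [hM1]; positivity
  have p2 : 0 ≤ M2 := by rw [hM2]; positivity
  have p3 : 0 ≤ M3 := by rw [hM3]; positivity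
  have p4 : 0 ≤ M4 := by rw [hM4]; positivity
  have p5 : 0 ≤ M5 := by rw [hM5]; positivity
  refine ⟨max M5 M6, le_trans p5 (le_max_left _ _), ?_⟩
  intro σ F hF hstep
  have hσ : ∀ k < 6, σ k ≤ S := by
    intro k hk
    exact hfac (σ k) (F k) (F (k + 1)) (hstep k hk).1 (hF k (by omega)) (hF (k + 1) (by omega))
      (hstep k hk).2
  have s1 : StB 1 ((i : ℝ) / 2) M1 (F 1) :=
    stb_congr (sga n i C1 C2 κ η S (σ 0) 0 (F 0) hn hi hin hC1.le hC2 hκ.le (hstep 0 (by omega)).1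
      (hσ 0 (by omega)) le_rfl (hF 0 (by omega))).1 (hstep 0 (by omega)).2
  have s2 : StB (1 / 4) ((i : ℝ) / 2) M2 (F 2) :=
    stb_congr ((sga n i C1 C2 κ η S (σ 1) M1 (F 1) hn hi hin hC1.le hC2 hκ.le
      (hstep 1 (by omega)).1 (hσ 1 (by omega)) p1 (hF 1 (by omega))).2 s1) (hstep 1 (by omega)).2
  have s3 : StB (1 / 4) ((i : ℝ) / 8) M3 (F 3) :=
    stb_congr ((sgb n i C1 C2 S (σ 2) M2 (F 2) hn hi hin hC1.le hC2
      (hstep 2 (by omega)).1 (hσ 2 (by omega)) p2 (hF 2 (by omega)).adm).1 s2)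
      (hstep 2 (by omega)).2
  have s4 : StB 0 ((i : ℝ) / 8) M4 (F 4) :=
    stb_congr ((sgb n i C1 C2 S (σ 3) M3 (F 3) hn hi hin hC1.le hC2
      (hstep 3 (by omega)).1 (hσ 3 (by omega)) p3 (hF 3 (by omega)).adm).2.1 s3)
      (hstep 3 (by omega)).2
  have s5 : StB 0 0 M5 (F 5) :=
    stb_congr ((sgb n i C1 C2 S (σ 4) M4 (F 4) hn hi hin hC1.le hC2
      (hstep 4 (by omega)).1 (hσ 4 (by omega)) p4 (hF 4 (by omega)).adm).2.2.1 s4)
      (hstep 4 (by omega)).2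
  have s6 : StB 0 0 M6 (F 6) :=
    stb_congr ((sgb n i C1 C2 S (σ 5) M5 (F 5) hn hi hin hC1.le hC2
      (hstep 5 (by omega)).1 (hσ 5 (by omega)) p5 (hF 5 (by omega)).adm).2.2.2 s5)
      (hstep 5 (by omega)).2
  refine ⟨fun t h0 h1 => ?_, fun t h0 h1 => ?_⟩
  · have := s5 t h0 h1
    simp only [neg_zero, Real.rpow_zero, mul_one] at this
    exact le_trans this (le_max_left _ _)
  · have := s6 t h0 h1
    simp only [neg_zero, Real.rpow_zero, mul_one] at this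
    exact le_trans this (le_max_right _ _)

end Pool.Agent.REV.H27
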