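import Pool.Agent.REV.StmtsV

set_option autoImplicit false

namespace Pool.Agent.REV.H27

open Set MeasureTheory Filter
open scoped Topology

theorem J0_mem (n : ℕ) (hn : 4 ≤ n) : 0 ≤ J0 n ∧ J0 n ≤ 1 := by
  have hn' : (4 : ℝ) ≤ n := by exact_mod_cast hn
  have he : 0 ≤ ((n : ℝ) - 4) / 2 := by linarith
  have hc : Continuous fun u : ℝ => (1 - u ^ 2) ^ (((n : ℝ) - 4) / 2) :=
    Continuous.rpow_const (by fun_prop) fun _ => Or.inr he
  unfold J0
  refine ⟨intervalIntegral.integral_nonneg (by norm_num) fun u hu => ?_, ?_⟩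
  · exact Real.rpow_nonneg (by nlinarith [hu.1, hu.2]) _
  · have h := intervalIntegral.integral_mono_on (μ := volume) (a := (0 : ℝ)) (b := 1)
      (f := fun u : ℝ => (1 - u ^ 2) ^ (((n : ℝ) - 4) / 2)) (g := fun _ => (1 : ℝ)) (by norm_num)
      (hc.intervalIntegrable 0 1) (by simp) (fun u hu =>
        Real.rpow_le_one (by nlinarith [hu.1, hu.2]) (by nlinarith [hu.1]) he)
    simpa using h

theorem vks (vdr : VdrStmt) (vlm : VlmStmt) : VksStmt := by
  intro n f b hn hf hb
  obtain ⟨hd, _, hdc⟩ := vdr n f hn hf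
  obtain ⟨_, hyc, hR, hy, _, _, hint, hI, hB⟩ := vlm n f hn hf
  obtain ⟨j0, j1⟩ := J0_mem n hn
  have hph0 : ∀ β : ℝ, 0 ≤ β → 0 ≤ ph n f β := fun β hβ => pow_nonneg (hy β hβ).1 _
  have hphR : ∀ β : ℝ, 0 ≤ β → ph n f β ≤ RA n f 1 ^ (n - 1) := fun β hβ =>
    pow_le_pow_left₀ (hy β hβ).1 (hy β hβ).2 _
  have hphc : ContinuousOn (ph n f) (Ici 0) := hyc.pow _
  have mg : ∀ J : ℝ, Measurable fun β : ℝ => min J (b / β) := fun J =>
    measurable_const.min (measurable_const.div measurable_id)
  -- integrability of the products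
  have hin : ∀ J : ℝ, 0 ≤ J → J ≤ 1 →
      IntegrableOn (fun β : ℝ => min J (b / β) * dph n f β) (Ioi 0) := by
    intro J hJ0 hJ1
    refine Integrable.mono hint ((mg J).aestronglyMeasurable.mul hint.aestronglyMeasurable) ?_
    refine (ae_restrict_mem measurableSet_Ioi).mono fun β hβ => ?_
    have hβ' : 0 < β := hβ
    rw [norm_mul]
    refine mul_le_of_le_one_left (norm_nonneg _) ?_
    rw [Real.norm_of_nonneg (le_min hJ0 (by positivity))]
    exact (min_le_left _ _).trans hJ1
  have hIoc : ∀ B : ℝ, 0 ≤ B → ∫ β in Ioc 0 B, dph n f β = ph n f B := by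
    intro B hB0
    have h1 : ∫ β in Ioi (0 : ℝ), dph n f β =
        (∫ β in Ioc 0 B, dph n f β) + ∫ β in Ioi B, dph n f β := by
      rw [← setIntegral_union (Ioc_disjoint_Ioi le_rfl) measurableSet_Ioi
        (hint.mono_set Ioc_subset_Ioi_self) (hint.mono_set (Ioi_subset_Ioi hB0)),
        Ioc_union_Ioi_eq_Ioi hB0]
    rw [hI, hB B hB0] at h1
    linarith
  have hsplit : ∀ (J B : ℝ), 0 ≤ J → J ≤ 1 → 0 ≤ B →
      ∫ β in Ioi (0 : ℝ), min J (b / β) * dph n f β =
        (∫ β in Ioc 0 B, min J (b / β) * dph n f β) +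
          ∫ β in Ioi B, min J (b / β) * dph n f β := by
    intro J B hJ0 hJ1 hB0
    rw [← setIntegral_union (Ioc_disjoint_Ioi le_rfl) measurableSet_Ioi
        ((hin J hJ0 hJ1).mono_set Ioc_subset_Ioi_self)
        ((hin J hJ0 hJ1).mono_set (Ioi_subset_Ioi hB0)),
        Ioc_union_Ioi_eq_Ioi hB0]
  have hq : IntegrableOn (fun β : ℝ => (β ^ 2)⁻¹ * ph n f β) (Ioi b) := by
    have h1 : IntegrableOn (fun β : ℝ => β ^ (-2 : ℝ)) (Ioi b) :=
      integrableOn_Ioi_rpow_of_lt (by norm_num) hb
    refine Integrable.mono (h1.mul_const (RA n f 1 ^ (n - 1))) ?_ ?_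
    · refine ContinuousOn.aestronglyMeasurable ?_ measurableSet_Ioi
      refine ContinuousOn.mul ?_ (hphc.mono fun β hβ => (hb.trans hβ).le)
      exact ContinuousOn.inv₀ (by fun_prop) fun β hβ => pow_ne_zero _ (hb.trans hβ).ne'
    · refine (ae_restrict_mem measurableSet_Ioi).mono fun β hβ => ?_
      have hβ' : 0 < β := hb.trans hβ
      have e : β ^ (-2 : ℝ) = (β ^ 2)⁻¹ := by
        rw [Real.rpow_neg hβ'.le]
        norm_num
      rw [norm_mul, norm_mul, e]
      refine mul_le_mul_of_nonneg_left ?_ (norm_nonneg _)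
      rw [Real.norm_of_nonneg (hph0 β hβ'.le), Real.norm_of_nonneg (pow_nonneg hR _)]
      exact hphR β hβ'.le
  refine ⟨hin _ j0 j1, ?_, hq, ?_⟩
  · intro B hB0
    rw [hsplit _ B j0 j1 hB0.le]
    have h1 : ∫ β in Ioc 0 B, min (J0 n) (b / β) * dph n f β ≤
        ∫ β in Ioc 0 B, J0 n * dph n f β := by
      refine setIntegral_mono_on ((hin _ j0 j1).mono_set Ioc_subset_Ioi_self)
        ((hint.mono_set Ioc_subset_Ioi_self).const_mul _) measurableSet_Ioc fun β hβ => ?_
      exact mul_le_mul_of_nonneg_right (min_le_left _ _) (hd β hβ.1).2.2.2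
    have h2 : ∫ β in Ioi B, min (J0 n) (b / β) * dph n f β ≤
        ∫ β in Ioi B, b / B * dph n f β := by
      refine setIntegral_mono_on ((hin _ j0 j1).mono_set (Ioi_subset_Ioi hB0.le))
        ((hint.mono_set (Ioi_subset_Ioi hB0.le)).const_mul _) measurableSet_Ioi fun β hβ => ?_
      have hβ' : 0 < β := hB0.trans hβ
      refine mul_le_mul_of_nonneg_right ?_ (hd β hβ').2.2.2
      exact (min_le_right _ _).trans (div_le_div_of_nonneg_left hb.le hB0 (le_of_lt hβ))
    rw [integral_const_mul, hIoc B hB0.le] at h1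
    rw [integral_const_mul, hB B hB0.le] at h2
    have h3 := hph0 B hB0.le
    have h4 : 0 ≤ b / B := by positivity
    nlinarith
  · have h1 : ∫ β in Ioi (0 : ℝ), min (J0 n) (b / β) * dph n f β ≤
        ∫ β in Ioi (0 : ℝ), min 1 (b / β) * dph n f β := by
      refine setIntegral_mono_on (hin _ j0 j1) (hin 1 zero_le_one le_rfl) measurableSet_Ioi
        fun β hβ => ?_
      exact mul_le_mul_of_nonneg_right (min_le_min_right _ j1) (hd β hβ).2.2.2
    refine h1.trans (le_of_eq ?_)
    rw [hsplit 1 b zero_le_one le_rfl hb.le]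
    have h2 : ∫ β in Ioc 0 b, min 1 (b / β) * dph n f β = ph n f b := by
      rw [← hIoc b hb.le]
      refine setIntegral_congr_fun measurableSet_Ioc fun β hβ => ?_
      have : (1 : ℝ) ≤ b / β := (one_le_div hβ.1).2 hβ.2
      simp only [min_eq_left this, one_mul]
    have h3 : ∫ β in Ioi b, min 1 (b / β) * dph n f β = ∫ β in Ioi b, b / β * dph n f β := by
      refine setIntegral_congr_fun measurableSet_Ioi fun β hβ => ?_
      have hβ' : 0 < β := hb.trans hβ
      have : b / β ≤ 1 := (div_le_one hβ').2 (le_of_lt hβ)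
      simp only [min_eq_right this]
    have i3 : IntegrableOn (fun β : ℝ => b / β * dph n f β) (Ioi b) := by
      refine ((hin 1 zero_le_one le_rfl).mono_set (Ioi_subset_Ioi hb.le)).congr_fun
        (fun β hβ => ?_) measurableSet_Ioi
      have hβ' : 0 < β := hb.trans hβ
      have : b / β ≤ 1 := (div_le_one hβ').2 (le_of_lt hβ)
      simp only [min_eq_right this]
    have i4 : IntegrableOn (fun β : ℝ => b * ((β ^ 2)⁻¹ * ph n f β)) (Ioi b) := hq.const_mul b
    have h4 : ∫ β in Ioi b, (b / β * dph n f β - b * ((β ^ 2)⁻¹ * ph n f β)) =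
        0 - b / b * ph n f b := by
      refine integral_Ioi_of_hasDerivAt_of_tendsto (f := fun β => b / β * ph n f β) ?_ ?_
        (i3.sub i4) ?_
      · refine ContinuousWithinAt.mul ?_ ((hphc b hb.le).mono fun β hβ => hb.le.trans hβ)
        exact (continuousAt_const.div continuousAt_id hb.ne').continuousWithinAt
      · intro β hβ
        have hβ' : 0 < β := hb.trans hβ
        have d1 : HasDerivAt (fun β : ℝ => b / β) (-(b / β ^ 2)) β := by
          have := (hasDerivAt_inv hβ'.ne').const_mul b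
          refine this.congr_deriv ?_
          ring
        have d2 := d1.mul (hd β hβ').2.1
        refine d2.congr_deriv ?_
        ring
      · have t1 : Tendsto (fun β : ℝ => b / β * RA n f 1 ^ (n - 1)) atTop (𝓝 0) := by
          have := (tendsto_const_nhds (x := b)).div_atTop (tendsto_id (α := ℝ) (x := atTop))
          have := this.mul_const (RA n f 1 ^ (n - 1))
          simpa using this
        refine squeeze_zero' ?_ ?_ t1
        · filter_upwards [eventually_gt_atTop 0] with β hβ
          exact mul_nonneg (by positivity) (hph0 β hβ.le)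
        · filter_upwards [eventually_gt_atTop 0] with β hβ
          exact mul_le_mul_of_nonneg_left (hphR β hβ.le) (by positivity)
    rw [integral_sub i3 i4, integral_const_mul, div_self hb.ne'] at h4
    rw [h2, h3]
    linarith

end Pool.Agent.REV.H27
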